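import Pool.Agent.Helper63.TK.Defs
import Pool.Agent.Helper30.TP.LFin

/-!
# The two cases
-/

set_option autoImplicit false

namespace Pool.Agent.Helper63.TK

open MvPolynomial
open Pool.Agent.Helper30.TP

variable {k K : Type} [Field k] [Field K] [Algebra k K]

theorem dichotomy (δ : Derivation k K K) {x : ℕ → Fin 3 → K} {S : Set ℕ} (hS : S.Infinite)
    (hx : ∀ n ∈ S, x n ≠ 0) (hnp : ∀ n ∈ S, ∀ n' ∈ S, n ≠ n' → ¬ PEq (x n) (x n'))
    {g : MvPolynomial (Fin 3) K} {D : ℕ} (hg : g.IsHomogeneous D) (hirr : Irreducible g)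
    (hgx : ∀ n ∈ S, eval (x n) g = 0) {w : ℕ} (hw : 2 ≤ w) :
    (∃ (i j : Fin 3) (S' : Set ℕ), S' ⊆ S ∧ S'.Infinite ∧
      ∀ A U : MvPolynomial (Fin 3) K, A.IsHomogeneous w → U.IsHomogeneous (w - 2) →
        ¬ (g ∣ A ∧ g ∣ U) →
          {n | n ∈ S' ∧ eval (x n) A - eval (x n) U * wr δ i j (x n) = 0}.Finite) ∨
    (∃ (S' : Set ℕ) (u : ℕ) (U : MvPolynomial (Fin 3) K)
        (A : Fin 3 → Fin 3 → MvPolynomial (Fin 3) K), S' ⊆ S ∧ S'.Infinite ∧
      U.IsHomogeneous u ∧ (∀ i j, (A i j).IsHomogeneous (u + 2)) ∧ ¬ g ∣ U ∧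
        ∀ n ∈ S', ∀ i j, eval (x n) U * wr δ i j (x n) = eval (x n) (A i j)) := by
  classical
  rw [or_iff_not_imp_left]
  intro hcon
  push Not at hcon
  -- the exceptional sets are finite
  have hfin : ∀ {V : MvPolynomial (Fin 3) K} {t : ℕ}, V.IsHomogeneous t → ¬ g ∣ V →
      {n | n ∈ S ∧ eval (x n) V = 0}.Finite := by
    intro V t hV hgV
    have h1 := finite_common_zeros hg hV hirr hgV (fun n : S => x n) (fun n => hx n n.2)
      (fun i j hij => hnp i i.2 j j.2 fun h => hij (Subtype.ext h))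
    refine (h1.image Subtype.val).subset ?_
    rintro n ⟨hn, h0⟩
    exact ⟨⟨n, hn⟩, ⟨hgx n hn, h0⟩, rfl⟩
  have step : ∀ P : Finset (Fin 3 × Fin 3), ∃ S' : Set ℕ, S' ⊆ S ∧ S'.Infinite ∧
      ∃ (U A : Fin 3 × Fin 3 → MvPolynomial (Fin 3) K), ∀ p ∈ P,
        (U p).IsHomogeneous (w - 2) ∧ (A p).IsHomogeneous w ∧ ¬ g ∣ U p ∧
          ∀ n ∈ S', eval (x n) (U p) * wr δ p.1 p.2 (x n) = eval (x n) (A p) := by
    intro P
    induction P using Finset.induction_on with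
    | empty => exact ⟨S, subset_rfl, hS, 0, 0, by simp⟩
    | insert p P hp ih =>
      obtain ⟨S', hS'S, hS'i, U, A, hUA⟩ := ih
      obtain ⟨A₁, U₁, hA₁, hU₁, hd, hinf⟩ := hcon p.1 p.2 S' hS'S hS'i
      set S₂ : Set ℕ := {n | n ∈ S' ∧ eval (x n) A₁ - eval (x n) U₁ * wr δ p.1 p.2 (x n) = 0}
        with hS₂
      have hS₂i : S₂.Infinite := hinf
      have hgU : ¬ g ∣ U₁ := by
        intro hgU
        have hgA : g ∣ A₁ := by
          by_contra hgA
          refine hS₂i ((hfin hA₁ hgA).subset ?_)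
          rintro n ⟨hn, h0⟩
          refine ⟨hS'S hn, ?_⟩
          obtain ⟨q, hq⟩ := hgU
          rw [hq, map_mul, hgx n (hS'S hn), zero_mul, zero_mul, sub_zero] at h0
          exact h0
        exact hd hgA hgU
      refine ⟨S₂, fun n hn => hS'S hn.1, hS₂i, fun q => if q = p then U₁ else U q,
        fun q => if q = p then A₁ else A q, fun q hq => ?_⟩
      by_cases hqp : q = p
      · subst hqp
        simp only [if_true]
        exact ⟨hU₁, hA₁, hgU, fun n hn => (sub_eq_zero.1 hn.2).symm⟩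
      · simp only [if_neg hqp]
        have hqP : q ∈ P := (Finset.mem_insert.1 hq).resolve_left hqp
        obtain ⟨h1, h2, h3, h4⟩ := hUA q hqP
        exact ⟨h1, h2, h3, fun n hn => h4 n hn.1⟩
  obtain ⟨S', hS'S, hS'i, U, A, hUA⟩ := step Finset.univ
  have hU : ∀ p, (U p).IsHomogeneous (w - 2) := fun p => (hUA p (Finset.mem_univ _)).1
  have hA : ∀ p, (A p).IsHomogeneous w := fun p => (hUA p (Finset.mem_univ _)).2.1
  have hgU : ∀ p, ¬ g ∣ U p := fun p => (hUA p (Finset.mem_univ _)).2.2.1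
  have hrel : ∀ p, ∀ n ∈ S', eval (x n) (U p) * wr δ p.1 p.2 (x n) = eval (x n) (A p) :=
    fun p => (hUA p (Finset.mem_univ _)).2.2.2
  refine ⟨S', ∑ _p : Fin 3 × Fin 3, (w - 2), ∏ p : Fin 3 × Fin 3, U p,
    fun i j => A (i, j) * ∏ p ∈ Finset.univ.erase (i, j), U p, hS'S, hS'i,
    IsHomogeneous.prod _ _ _ fun p _ => hU p, fun i j => ?_, ?_, fun n hn i j => ?_⟩
  · have h1 : (A (i, j) * ∏ p ∈ Finset.univ.erase (i, j), U p).IsHomogeneous
        (w + ∑ _p ∈ (Finset.univ : Finset (Fin 3 × Fin 3)).erase (i, j), (w - 2)) :=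
      (hA (i, j)).mul (IsHomogeneous.prod _ _ _ fun p _ => hU p)
    have h2 : w + ∑ _p ∈ (Finset.univ : Finset (Fin 3 × Fin 3)).erase (i, j), (w - 2) =
        (∑ _p : Fin 3 × Fin 3, (w - 2)) + 2 := by
      rw [← Finset.add_sum_erase Finset.univ (fun _ : Fin 3 × Fin 3 => w - 2)
        (Finset.mem_univ (i, j))]
      omega
    rw [← h2]
    exact h1
  · intro hdvd
    obtain ⟨p, -, hp⟩ := (UniqueFactorizationMonoid.irreducible_iff_prime.1 hirr).exists_mem_finset_dvd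
      hdvd
    exact hgU p hp
  · rw [← Finset.mul_prod_erase Finset.univ U (Finset.mem_univ (i, j)), map_mul, map_mul,
      ← hrel (i, j) n hn]
    ring

end Pool.Agent.Helper63.TK
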