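import Pool.Agent.Helper63.TK.Good2
import Pool.Agent.Helper63.TK.Growth
import Pool.Agent.Helper30.TP.NonCrit

/-!
# Points specialising to a noncritical cycle, the map being defined over the function field
-/

set_option autoImplicit false

namespace Pool.Agent.Helper63.TK

open MvPolynomial
open Pool.Agent.Helper16 (Place IsFunctionField)
open Pool.Agent.Helper36 (step iter)
open Pool.Agent.Helper30.TP

section EtaleAux

open Pool.Agent.Helper38.TPN Pool.Agent.Helper37

open Pool.Agent.Helper38.Dml (pmap pjac) in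
/-- The final step. -/
theorem Etale_final {k K : Type} [Field k] [Field K] [Algebra k K] [Algebra k ℂ]
    [Algebra K ℂ] [IsScalarTower k K ℂ] (p : ℕ) [hp : Fact p.Prime] {A : Type} [CommRing A]
    (θ : A →+* ℤ_[p]) {d : ℕ}
    (FA : Fin 3 → MvPolynomial (Fin 3) A) (zA : Fin 3 → A)
    (hG : Pool.Agent.Helper38.Dml.GoodAt (fun i => map (PadicInt.toZMod.comp θ) (FA i))
      (fun i => (PadicInt.toZMod.comp θ) (zA i)))
    (K₁ : Type) [Field K₁] (κ : K₁ →+* K) (ι : K₁ →+* ℚ_[p])
    (Φ : Fin 3 → MvPolynomial (Fin 3) K₁) (hΦh : ∀ i, (Φ i).IsHomogeneous d)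
    (hΦ : ∀ i m, ‖ι ((Φ i).coeff m) - ((θ ((FA i).coeff m) : ℤ_[p]) : ℚ_[p])‖ < 1)
    (ξ : Fin 3 → K₁) (hξ : ∀ i, ‖ι (ξ i) - ((θ (zA i) : ℤ_[p]) : ℚ_[p])‖ < 1)
    (c : ℂ) (hc : c ≠ 0) :
    Pool.Agent.Helper38.Sym.DMLgen (fun i => map ((algebraMap K ℂ).comp κ) (Φ i))
      (fun i => c * algebraMap K ℂ (κ (ξ i))) := by
  classical
  have hfin : Finite (IsLocalRing.ResidueField (padicRing p ι)) := Nat.finite_of_card_ne_zero (by
    rw [card_residueField_padicRing]; exact hp.out.ne_zero)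
  let _ : Algebra (padicRing p ι) ℂ :=
    (((algebraMap K ℂ).comp κ).comp (padicRing p ι).subtype).toAlgebra
  have hRL : Function.Injective (algebraMap (padicRing p ι) ℂ) := by
    intro x y h
    have h1 : algebraMap K ℂ (κ (x : K₁)) = algebraMap K ℂ (κ (y : K₁)) := h
    exact Subtype.ext (κ.injective ((algebraMap K ℂ).injective h1))
  have hmemg : ∀ (v : K₁) (a : A), ‖ι v - ((θ a : ℤ_[p]) : ℚ_[p])‖ < 1 → v ∈ padicRing p ι := by
    intro v a hv
    rw [mem_padicRing]
    have h1 : ι v = (ι v - ((θ a : ℤ_[p]) : ℚ_[p])) + ((θ a : ℤ_[p]) : ℚ_[p]) := by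
      ring
    rw [h1]
    exact (Padic.nonarchimedean _ _).trans (max_le hv.le (θ a).2)
  have hmem : ∀ i, ξ i ∈ padicRing p ι := fun i => hmemg _ _ (hξ i)
  let χ : padicRing p ι →+* ZMod p := PadicInt.toZMod.comp (padicRingHom p ι)
  have hχ : ∀ r, χ r ≠ 0 → IsUnit r := by
    intro r hr
    rw [isUnit_padicRing_iff]
    have h1 : padicRingHom p ι r ∉ IsLocalRing.maximalIdeal ℤ_[p] := by
      intro h
      rw [← PadicInt.ker_toZMod, RingHom.mem_ker] at h
      exact hr h
    rw [IsLocalRing.mem_maximalIdeal, mem_nonunits_iff, not_not, PadicInt.isUnit_iff] at h1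
    exact h1
  have hχg : ∀ (v : K₁) (hv : v ∈ padicRing p ι) (a : A),
      ‖ι v - ((θ a : ℤ_[p]) : ℚ_[p])‖ < 1 → χ ⟨v, hv⟩ = (PadicInt.toZMod.comp θ) a := by
    intro v hv a hva
    change PadicInt.toZMod (padicRingHom p ι ⟨v, hv⟩) = PadicInt.toZMod (θ a)
    rw [← sub_eq_zero, ← map_sub, ← RingHom.mem_ker, PadicInt.ker_toZMod,
      IsLocalRing.mem_maximalIdeal, mem_nonunits_iff, PadicInt.isUnit_iff]
    have h1 : ‖padicRingHom p ι ⟨v, hv⟩ - θ a‖ < 1 := hva
    exact h1.ne
  have hlift : ∀ i, ∃ G : MvPolynomial (Fin 3) (padicRing p ι),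
      map (padicRing p ι).subtype G = Φ i := by
    intro i
    have h1 := (MvPolynomial.mem_range_map_iff_coeffs_subset
      (f := (padicRing p ι).subtype) (x := Φ i)).2 (by
      intro v hv
      rw [Finset.mem_coe, MvPolynomial.mem_coeffs_iff] at hv
      obtain ⟨m, -, rfl⟩ := hv
      exact ⟨⟨_, hmemg _ _ (hΦ i m)⟩, rfl⟩)
    exact h1
  choose G hG' using hlift
  have hGc : ∀ i m, (padicRing p ι).subtype ((G i).coeff m) = (Φ i).coeff m := by
    intro i m
    rw [← hG' i, coeff_map]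
  have hGh : ∀ i, (G i).IsHomogeneous d := by
    intro i v hv
    refine hΦh i ?_
    rw [← hGc]
    intro h0
    exact hv (Subtype.ext h0)
  have hχG : ∀ i, map χ (G i) = map (PadicInt.toZMod.comp θ) (FA i) := by
    intro i
    ext m
    rw [coeff_map, coeff_map]
    have h3 : ‖ι ((padicRing p ι).subtype ((G i).coeff m))
        - ((θ ((FA i).coeff m) : ℤ_[p]) : ℚ_[p])‖ < 1 := by
      rw [hGc]
      exact hΦ i m
    exact hχg _ ((G i).coeff m).2 _ h3
  have h := Pool.Agent.Helper38.Sym.dml_dvr_general (d := d) p hp.out (p_mem_maximalIdeal p ι) χ hχ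
    G hGh (fun i => ⟨ξ i, hmem i⟩) (by
      have h2 : ∀ i, χ ⟨ξ i, hmem i⟩ = (PadicInt.toZMod.comp θ) (zA i) := fun i =>
        hχg _ _ _ (hξ i)
      simp only [hχG, h2]
      exact hG) hRL c hc
  have h1 : ∀ i, map (algebraMap (padicRing p ι) ℂ) (G i)
      = map ((algebraMap K ℂ).comp κ) (Φ i) := by
    intro i
    rw [← hG' i, map_map]
    rfl
  simp only [h1] at h
  exact h

/-- The monomials of the two systems. -/
noncomputable def Etale_mon {k K : Type} [Field k] [Field K]
    (F : Fin 3 → MvPolynomial (Fin 3) K) (f : Fin 3 → MvPolynomial (Fin 3) k) :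
    Finset (Fin 3 →₀ ℕ) := by
  classical exact Finset.univ.biUnion fun i => (F i).support ∪ (f i).support

end EtaleAux

open Pool.Agent.Helper38.TPN Pool.Agent.Helper37 in
theorem etale_dml {k K : Type} [Field k] [IsAlgClosed k] [Field K] [Algebra k K] [Algebra k ℂ]
    [Algebra K ℂ] [IsScalarTower k K ℂ] (hK : IsFunctionField k K) {d : ℕ}
    {F : Fin 3 → MvPolynomial (Fin 3) K} (hF : ∀ i, (F i).IsHomogeneous d) (x : Fin 3 → K)
    (hx : x ≠ 0) (b : Place k K) (f : Fin 3 → MvPolynomial (Fin 3) k) (hf : GoodRed d b F f)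
    (z : Fin 3 → k) (hred : Red b x z) (n N : ℕ) (hN : 0 < N)
    (hper : PEq (iter f z n) (iter f z (n + N))) (hdet : (mult f (iter f z n) N).det ≠ 0)
    (c : ℂ) (hc : c ≠ 0) :
    Pool.Agent.Helper38.Sym.DMLgen (fun i => map (algebraMap K ℂ) (F i))
      (fun i => c * algebraMap K ℂ (x i)) := by
  classical
  have hchar : CharZero k := (algebraMap k ℂ).charZero
  obtain ⟨hz, c₀, hc₀, hcz⟩ := hred
  obtain ⟨c₁, hc₁, hper⟩ := hper
  set T : Finset (Fin 3 →₀ ℕ) := Etale_mon F f with hT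
  have hTF : ∀ i m, m ∉ T → (F i).coeff m = 0 ∧ (f i).coeff m = 0 := by
    intro i m hm
    have h1 : m ∉ (F i).support ∪ (f i).support := fun h =>
      hm (Finset.mem_biUnion.2 ⟨i, Finset.mem_univ _, h⟩)
    rw [Finset.mem_union, not_or, notMem_support_iff, notMem_support_iff] at h1
    exact h1
  have hTd : ∀ m ∈ T, Finsupp.weight 1 m = d := by
    intro m hm
    obtain ⟨i, -, h1⟩ := Finset.mem_biUnion.1 hm
    rcases Finset.mem_union.1 h1 with h2 | h2
    · exact hF i (mem_support_iff.1 h2)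
    · exact hf.endo.hom i (mem_support_iff.1 h2)
  obtain ⟨s, y, Q, a, q, r, e, P, u, ρ, m, N', hs, hQd, hQy, hmin, hP, hM⟩ :=
    exists_model hK b (ι := Fin 3 ⊕ (Fin 3 × {m // m ∈ T}))
      (fun i => Sum.elim (fun i => c₀ * x i - algebraMap k K (z i))
        (fun im => (F im.1).coeff (im.2 : Fin 3 →₀ ℕ)
          - algebraMap k K ((f im.1).coeff (im.2 : Fin 3 →₀ ℕ))) i) (by
        intro i
        rcases i with i | i
        · exact hcz i
        · exact hf.red i.1 i.2)
  -- nonzero coordinates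
  have hznz : ∀ i, ∃ l, iter f z i l ≠ 0 := by
    intro i
    by_contra hcon
    push Not at hcon
    exact iter_ne_zero hf.endo hz i (funext hcon)
  choose l hl using hznz
  -- Jacobians
  have hdet' : ∀ i, n ≤ i → i < n + N →
      (Pool.Agent.Helper38.Dml.pjac f (iter f z i)).det ≠ 0 := by
    intro i h1 h2
    rw [det_mult, Finset.prod_ne_zero_iff] at hdet
    have h3 := hdet (i - n) (Finset.mem_range.2 (by omega))
    have h4 : iter f (iter f z n) (i - n) = iter f z i := by
      have h5 : i = (i - n) + n := by omega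
      conv_rhs => rw [h5]
      unfold Pool.Agent.Helper36.iter
      rw [Function.iterate_add_apply]
    rwa [h4] at h3
  let S : Finset k := NonCrit_cf2 Q ∪ NonCrit_cf a ∪ NonCrit_cf q ∪ NonCrit_cf r ∪ NonCrit_cf e ∪
    (Finset.univ.biUnion fun i => NonCrit_cf2 (P i)) ∪
    (Finset.univ.biUnion fun i => NonCrit_cf (u i)) ∪
    (Finset.univ.biUnion fun i => (f i).coeffs) ∪ Finset.univ.image z ∪
    {c₁, c₁⁻¹, (e.coeff 0)⁻¹, (q.coeff 0)⁻¹} ∪
    ((Finset.range (n + N + 1)).image fun i => (iter f z i (l i))⁻¹) ∪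
    ((Finset.range (n + N)).image fun i =>
      ((Pool.Agent.Helper38.Dml.pjac f (iter f z i)).det)⁻¹)
  obtain ⟨p, hp, A, _, _, _, j, θ, hj, hθ, hS⟩ := exists_package S
  -- lifts
  have mS : ∀ T : Finset k, T ⊆ S → ∀ c ∈ T, c ∈ Set.range j := fun T hT c hc => hS c (hT hc)
  obtain ⟨QA, hQA⟩ := NonCrit_lift2 j Q (mS _ (by intro v hv; simp only [S, Finset.mem_union]; tauto))
  obtain ⟨aA, haA⟩ := NonCrit_lift j a (mS _ (by intro v hv; simp only [S, Finset.mem_union]; tauto))
  obtain ⟨qA, hqA⟩ := NonCrit_lift j q (mS _ (by intro v hv; simp only [S, Finset.mem_union]; tauto))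
  obtain ⟨rA, hrA⟩ := NonCrit_lift j r (mS _ (by intro v hv; simp only [S, Finset.mem_union]; tauto))
  obtain ⟨eA, heA⟩ := NonCrit_lift j e (mS _ (by intro v hv; simp only [S, Finset.mem_union]; tauto))
  have hPex : ∀ i, ∃ PA : Polynomial (Polynomial A), PA.map (Polynomial.mapRingHom j) = P i := fun i =>
    NonCrit_lift2 j (P i) (mS _ (by
      intro v hv
      have h1 : v ∈ Finset.univ.biUnion fun i => NonCrit_cf2 (P i) :=
        Finset.mem_biUnion.2 ⟨i, Finset.mem_univ _, hv⟩
      simp only [S, Finset.mem_union]; tauto))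
  choose PA hPA using hPex
  have huex : ∀ i, ∃ uA : Polynomial A, uA.map j = u i := fun i =>
    NonCrit_lift j (u i) (mS _ (by
      intro v hv
      have h1 : v ∈ Finset.univ.biUnion fun i => NonCrit_cf (u i) :=
        Finset.mem_biUnion.2 ⟨i, Finset.mem_univ _, hv⟩
      simp only [S, Finset.mem_union]; tauto))
  choose uA huA using huex
  have hFex : ∀ i, ∃ FA, map j FA = f i := fun i =>
    NonCrit_liftMv j (f i) (mS _ (by
      intro v hv
      have h1 : v ∈ Finset.univ.biUnion fun i => (f i).coeffs :=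
        Finset.mem_biUnion.2 ⟨i, Finset.mem_univ _, hv⟩
      simp only [S, Finset.mem_union]; tauto))
  choose FA hFA using hFex
  have hzex : ∀ i, ∃ zA, j zA = z i := fun i => hS _ (by
      have h1 : z i ∈ Finset.univ.image z := Finset.mem_image_of_mem _ (Finset.mem_univ _)
      simp only [S, Finset.mem_union]; tauto)
  choose zA hzA using hzex
  have h4 : ∀ v ∈ ({c₁, c₁⁻¹, (e.coeff 0)⁻¹, (q.coeff 0)⁻¹} : Finset k), v ∈ Set.range j :=
    mS _ (by intro v hv; simp only [S, Finset.mem_union]; tauto)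
  have hinjX : Function.Injective (Polynomial.map j) := Polynomial.map_injective j hj
  have hFAh : ∀ i, (FA i).IsHomogeneous d := by
    intro i
    have h1 := hf.endo.hom i
    rw [← hFA i] at h1
    intro v hv
    refine h1 ?_
    rw [coeff_map]
    intro h0
    exact hv (hj (by rw [h0, map_zero]))
  have hFAc : ∀ i v, j ((FA i).coeff v) = (f i).coeff v := by
    intro i v
    rw [← hFA i, coeff_map]
  -- the identities over `A`
  have hev : ∀ R : Polynomial (Polynomial A),
      (R.map (Polynomial.mapRingHom j)).eval a = (R.eval aA).map j := by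
    intro R
    rw [← haA, Polynomial.eval_map]
    exact Polynomial.eval₂_at_apply (Polynomial.mapRingHom j) aA
  have e1 : QA.eval aA = Polynomial.X ^ N' * rA := by
    apply hinjX
    rw [← hev, hQA, hM.evQ, Polynomial.map_mul, Polynomial.map_pow, Polynomial.map_X, hrA]
  have e2 : (Polynomial.derivative QA).eval aA = Polynomial.X ^ ρ * eA := by
    apply hinjX
    rw [← hev, ← Polynomial.derivative_map, hQA, hM.evD, Polynomial.map_mul, Polynomial.map_pow,
      Polynomial.map_X, heA]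
  have e3 : ∀ i, (PA i).eval aA = Polynomial.X ^ (m + 1) * uA i := by
    intro i
    apply hinjX
    rw [← hev, hPA, hM.evP, Polynomial.map_mul, Polynomial.map_pow, Polynomial.map_X, huA]
  have e4 : IsUnit (eA.coeff 0) := by
    have h5 : j (eA.coeff 0) = e.coeff 0 := by rw [← heA, Polynomial.coeff_map]
    exact isUnit_of_inv_mem j hj _ (by rw [h5]; exact hM.e0) (by rw [h5]; exact h4 _ (by simp))
  have e5 : IsUnit (qA.coeff 0) := by
    have h5 : j (qA.coeff 0) = q.coeff 0 := by rw [← hqA, Polynomial.coeff_map]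
    exact isUnit_of_inv_mem j hj _ (by rw [h5]; exact hM.q0) (by rw [h5]; exact h4 _ (by simp))
  obtain ⟨t, ht1, ht⟩ := exists_small p θ hθ
  have ht0 : t ≠ 0 := by
    intro h0
    apply ht Polynomial.X Polynomial.X_ne_zero
    rw [Polynomial.eval₂_X, h0]
  obtain ⟨w, hw, hwP, hwq⟩ := hensel_model p θ QA aA qA rA eA PA uA ρ m N' hM.le₁ hM.le₂ e1 e2 e4
    e5 e3 t ht1 ht0
  have hmapinj : Function.Injective (Polynomial.mapRingHom j) := hinjX
  have hQAd : QA.natDegree = Q.natDegree := by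
    rw [← hQA, Polynomial.natDegree_map_eq_of_injective hmapinj]
  obtain ⟨K₁, _, κ, ι, γ, η, g1, g2, g3, g4⟩ := exists_hom (k := k) (K := K) p j hj θ s y hs t w ht
    QA (by rw [hQAd]; exact hQd) (by rw [← ev2_map, hQA]; exact hQy)
    (by intro R h1 h2; rw [hQAd]; exact hmin R h1 h2) hw
  -- good reduction
  have hG := goodAt_reduction j hj (PadicInt.toZMod.comp θ) f FA hFA hFAh z zA hzA n N hN c₁ hc₁
    hper (h4 _ (by simp)) (h4 _ (by simp)) l (by
      intro i hi
      refine ⟨hl i, hS _ ?_⟩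
      have h5 : (iter f z i (l i))⁻¹ ∈ (Finset.range (n + N + 1)).image
          fun i => (iter f z i (l i))⁻¹ :=
        Finset.mem_image.2 ⟨i, Finset.mem_range.2 (by omega), rfl⟩
      simp only [S, Finset.mem_union]; tauto) (by
      intro i h1 h2
      refine ⟨hdet' i h1 h2, hS _ ?_⟩
      have h5 : ((Pool.Agent.Helper38.Dml.pjac f (iter f z i)).det)⁻¹ ∈ (Finset.range (n + N)).image
          fun i => ((Pool.Agent.Helper38.Dml.pjac f (iter f z i)).det)⁻¹ :=
        Finset.mem_image.2 ⟨i, Finset.mem_range.2 h2, rfl⟩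
      simp only [S, Finset.mem_union]; tauto)
  -- the coordinates
  set δ : A →+* K₁ := γ.comp Polynomial.C with hδ
  have k1 : ∀ v, κ (δ v) = algebraMap k K (j v) := by
    intro v
    have h5 := g1 (Polynomial.C v)
    rwa [Polynomial.eval₂_C] at h5
  have k2 : ∀ v, ι (δ v) = ((θ v : ℤ_[p]) : ℚ_[p]) := by
    intro v
    have h5 := g2 (Polynomial.C v)
    rwa [Polynomial.eval₂_C] at h5
  set D : K₁ := γ (Polynomial.X ^ m * qA) with hD
  have hιD : ‖ι D‖ = ‖t‖ ^ m := by
    rw [hD, g2]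
    exact hwq
  have htn : 0 < ‖t‖ := norm_pos_iff.2 ht0
  have hD0 : D ≠ 0 := by
    intro h
    rw [h, map_zero, norm_zero] at hιD
    exact (pow_pos htn m).ne hιD
  have hκD : κ D = Polynomial.aeval s (Polynomial.X ^ m * q) := by
    rw [hD, g1, ← hqA, Polynomial.aeval_def]
    have h5 : (Polynomial.X ^ m * qA.map j : Polynomial k)
        = (Polynomial.X ^ m * qA).map j := by
      rw [Polynomial.map_mul, Polynomial.map_pow, Polynomial.map_X]
    rw [h5, Polynomial.eval₂_map]
  set V : (Fin 3 ⊕ (Fin 3 × {m // m ∈ T})) → K₁ := fun i => ev2 δ (γ Polynomial.X) η (PA i) with hV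
  have hκV : ∀ i, κ (V i) = Polynomial.aeval s (Polynomial.X ^ m * q)
      * (Sum.elim (fun i => c₀ * x i - algebraMap k K (z i))
        (fun im : Fin 3 × {m // m ∈ T} => (F im.1).coeff (im.2 : Fin 3 →₀ ℕ)
          - algebraMap k K ((f im.1).coeff (im.2 : Fin 3 →₀ ℕ))) i) := by
    intro i
    rw [← hP i, hV, ← ev2_comp, ← hPA i, ev2_map]
    have h5 : κ.comp δ = (algebraMap k K).comp j := RingHom.ext k1
    have h6 : κ (γ Polynomial.X) = s := by rw [g1, Polynomial.eval₂_X]
    rw [h5, h6, g3]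
  have hιV : ∀ i, ‖ι (V i)‖ ≤ ‖t‖ ^ (m + 1) := by
    intro i
    have h5 : ι (V i) = ((ev2 θ t w (PA i) : ℤ_[p]) : ℚ_[p]) := by
      rw [hV, ← ev2_comp]
      have h6 : ι.comp δ = (PadicInt.Coe.ringHom (p := p)).comp θ := RingHom.ext k2
      have h7 : ι (γ Polynomial.X) = PadicInt.Coe.ringHom (p := p) t := by
        rw [g2, Polynomial.eval₂_X]; rfl
      have h8 : ι η = PadicInt.Coe.ringHom (p := p) w := g4
      rw [h6, h7, h8, ev2_comp]
      rfl
    rw [h5]
    exact hwP i
  have hsmall : ∀ i, ‖ι (V i / D)‖ < 1 := by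
    intro i
    rw [map_div₀, norm_div, hιD, div_lt_one (pow_pos htn m)]
    refine lt_of_le_of_lt (hιV i) ?_
    exact pow_lt_pow_right_of_lt_one₀ htn ht1 (by omega)
  have hκD0 : κ D ≠ 0 := by simpa using hD0
  have hκVD : ∀ i, κ (V i / D) = Sum.elim (fun i => c₀ * x i - algebraMap k K (z i))
        (fun im : Fin 3 × {m // m ∈ T} => (F im.1).coeff (im.2 : Fin 3 →₀ ℕ)
          - algebraMap k K ((f im.1).coeff (im.2 : Fin 3 →₀ ℕ))) i := by
    intro i
    rw [map_div₀, hκV, ← hκD, mul_div_cancel_left₀ _ hκD0]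
  -- the polynomials over `K₁`
  let cf : Fin 3 → (Fin 3 →₀ ℕ) → K₁ := fun i v =>
    if hv : v ∈ T then δ ((FA i).coeff v) + V (Sum.inr (i, ⟨v, hv⟩)) / D else 0
  let Φ : Fin 3 → MvPolynomial (Fin 3) K₁ := fun i => ∑ v ∈ T, monomial v (cf i v)
  have hΦc : ∀ i v, (Φ i).coeff v = cf i v := by
    intro i v
    simp only [Φ, coeff_sum, coeff_monomial]
    rw [Finset.sum_ite_eq']
    split_ifs with h
    · rfl
    · simp only [cf, dif_neg h]
  have hΦh : ∀ i, (Φ i).IsHomogeneous d := by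
    intro i v hv
    refine hTd v ?_
    by_contra h
    apply hv
    rw [hΦc]
    simp only [cf, dif_neg h]
  have hΦn : ∀ i v, ‖ι ((Φ i).coeff v) - ((θ ((FA i).coeff v) : ℤ_[p]) : ℚ_[p])‖ < 1 := by
    intro i v
    rw [hΦc]
    by_cases h : v ∈ T
    · simp only [cf, dif_pos h]
      rw [map_add, k2, add_sub_cancel_left]
      exact hsmall _
    · simp only [cf, dif_neg h]
      have h5 : (FA i).coeff v = 0 := by
        apply hj
        rw [hFAc, (hTF i v h).2, map_zero]
      rw [h5]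
      simp
  have hΦF : ∀ i, map κ (Φ i) = F i := by
    intro i
    ext v
    rw [coeff_map, hΦc]
    by_cases h : v ∈ T
    · simp only [cf, dif_pos h]
      rw [map_add, k1, hFAc, hκVD]
      simp only [Sum.elim_inr]
      ring
    · simp only [cf, dif_neg h]
      rw [map_zero, (hTF i v h).1]
  have hfinal := Etale_final (k := k) (K := K) p θ (d := d) FA zA hG K₁ κ ι Φ hΦh hΦn
    (fun i => δ (zA i) + V (Sum.inl i) / D) (by
      intro i
      rw [map_add, k2, add_sub_cancel_left]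
      exact hsmall _)
    (c * (algebraMap K ℂ c₀)⁻¹) (mul_ne_zero hc (inv_ne_zero (by simpa using hc₀)))
  have hlast : ∀ i, c * (algebraMap K ℂ c₀)⁻¹ * algebraMap K ℂ (κ (δ (zA i) + V (Sum.inl i) / D))
      = c * algebraMap K ℂ (x i) := by
    intro i
    have h5 : κ (δ (zA i) + V (Sum.inl i) / D) = c₀ * x i := by
      rw [map_add, k1, hzA, hκVD]
      simp only [Sum.elim_inl]
      ring
    rw [h5, map_mul]
    have h6 : algebraMap K ℂ c₀ ≠ 0 := by simpa using hc₀
    field_simp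
  have hlast2 : ∀ i, map ((algebraMap K ℂ).comp κ) (Φ i) = map (algebraMap K ℂ) (F i) := by
    intro i
    rw [← hΦF i, map_map]
  simp only [hlast, hlast2] at hfinal
  exact hfinal

end Pool.Agent.Helper63.TK
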