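import Pool.Agent.Helper63.TK.OdeA
import Pool.Agent.Helper30.TP.Low

/-!
# The differential equation near a point: contacts are bounded
-/

set_option autoImplicit false

namespace Pool.Agent.Helper63.TK

open MvPolynomial
open Pool.Agent.Helper16 (Place IsFunctionField)
open Pool.Agent.Helper30.TP
open Pool.Agent.Helper31.RRK (ordDer)

section OdeB_aux

variable {k K : Type} [Field k] [Field K] [Algebra k K]

/-- Congruence of integral elements. -/
def OdeB_R (b : Place k K) (x y : K) : Prop := b.val x ≤ 1 ∧ b.val y ≤ 1 ∧ b.val (x - y) < 1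

theorem OdeB_mul {b : Place k K} {x y x' y' : K} (h : OdeB_R b x y) (h' : OdeB_R b x' y') :
    OdeB_R b (x * x') (y * y') := by
  obtain ⟨h1, h2, h3⟩ := h
  obtain ⟨h1', h2', h3'⟩ := h'
  refine ⟨by rw [map_mul]; exact mul_le_one' h1 h1', by rw [map_mul]; exact mul_le_one' h2 h2', ?_⟩
  have e : x * x' - y * y' = (x - y) * x' + (x' - y') * y := by ring
  rw [e]
  refine b.val.map_add_lt ?_ ?_
  · rw [map_mul]; exact mul_lt_one_of_lt_of_le h3 h1'
  · rw [map_mul]; exact mul_lt_one_of_lt_of_le h3' h2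

theorem OdeB_refl {b : Place k K} {x : K} (h : b.val x ≤ 1) : OdeB_R b x x :=
  ⟨h, h, by rw [sub_self, map_zero]; exact zero_lt_one⟩

theorem OdeB_pow {b : Place k K} {x y : K} (h : OdeB_R b x y) (n : ℕ) :
    OdeB_R b (x ^ n) (y ^ n) := by
  induction n with
  | zero =>
    rw [pow_zero, pow_zero]
    exact OdeB_refl (by rw [map_one])
  | succ n ih =>
    rw [pow_succ, pow_succ]
    exact OdeB_mul ih h

theorem OdeB_prod {ι : Type} {b : Place k K} (s : Finset ι) {f g : ι → K}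
    (h : ∀ i ∈ s, OdeB_R b (f i) (g i)) : OdeB_R b (∏ i ∈ s, f i) (∏ i ∈ s, g i) := by
  classical
  induction s using Finset.induction_on with
  | empty =>
    rw [Finset.prod_empty, Finset.prod_empty]
    exact OdeB_refl (by rw [map_one])
  | insert a s ha ih =>
    rw [Finset.prod_insert ha, Finset.prod_insert ha]
    exact OdeB_mul (h a (Finset.mem_insert_self a s))
      (ih fun i hi => h i (Finset.mem_insert_of_mem hi))

theorem OdeB_sum {ι : Type} {b : Place k K} (s : Finset ι) {f g : ι → K}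
    (h : ∀ i ∈ s, OdeB_R b (f i) (g i)) : OdeB_R b (∑ i ∈ s, f i) (∑ i ∈ s, g i) := by
  refine ⟨b.val.map_sum_le fun i hi => (h i hi).1, b.val.map_sum_le fun i hi => (h i hi).2.1, ?_⟩
  rw [← Finset.sum_sub_distrib]
  exact b.val.map_sum_lt one_ne_zero fun i hi => (h i hi).2.2

/-- Values of a polynomial with integral coefficients. -/
theorem OdeB_eval {b : Place k K} {A : MvPolynomial (Fin 3) K} (hA : gs b A ≤ 1)
    {u v : Fin 3 → K} (h : ∀ i, OdeB_R b (u i) (v i)) : OdeB_R b (eval u A) (eval v A) := by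
  rw [eval_eq, eval_eq]
  refine OdeB_sum _ fun m _ => OdeB_mul (OdeB_refl ((formHeight_le b A m).trans hA)) ?_
  exact OdeB_prod _ fun i _ => OdeB_pow (h i) _

theorem OdeB_eval_unit {b : Place k K} {A : MvPolynomial (Fin 3) K} (hA : gs b A ≤ 1)
    {u v : Fin 3 → K} (h : ∀ i, OdeB_R b (u i) (v i)) (h1 : b.val (eval u A) = 1) :
    b.val (eval v A) = 1 := by
  have h2 := (OdeB_eval hA h).2.2
  have e : eval v A = eval u A - (eval u A - eval v A) := by ring
  rw [e]
  rw [← h1] at h2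
  rw [Valuation.map_sub_eq_of_lt_left _ h2, h1]

end OdeB_aux

variable {k K : Type} [Field k] [IsAlgClosed k] [Field K] [Algebra k K]

theorem OdeB_fin_gs (hK : IsFunctionField k K) (A : MvPolynomial (Fin 3) K) :
    {b : Place k K | ¬ gs b A ≤ 1}.Finite := by
  by_cases h0 : A = 0
  · subst h0
    refine Set.Finite.subset Set.finite_empty ?_
    intro b hb
    apply hb
    rw [formHeight_zero]
    exact zero_le
  · refine (formHeight_support hK h0).subset ?_
    intro b hb h1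
    apply hb
    have h2 : WithZero.log (gs b A) = 0 := h1
    have h3 : gs b A ≠ 0 := (formHeight_pos h0).ne'
    rw [← WithZero.exp_log h3, h2, WithZero.exp_zero]

theorem OdeB_fin_val (hK : IsFunctionField k K) {f : K} (hf : f ≠ 0) :
    {b : Place k K | b.val f ≠ 1}.Finite := by
  refine (finsum_log hK f hf).1.subset ?_
  intro b hb h1
  apply hb
  have h2 : WithZero.log (b.val f) = 0 := h1
  have h3 : b.val f ≠ 0 := by simpa using hf
  rw [← WithZero.exp_log h3, h2, WithZero.exp_zero]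

/-- At almost all places there are no contacts. -/
theorem ode_almost [CharZero k] (hK : IsFunctionField k K) {δ : Derivation k K K} (hδ : δ ≠ 0)
    {P : Fin 3 → K} {p j₁ j₂ : Fin 3} {e r : ℕ} {α β E H : MvPolynomial (Fin 3) K}
    {T : Set (Fin 3 → K)} (hode : Ode δ P p j₁ j₂ e r α β E H T) :
    {b : Place k K | ∃ Q ∈ T, Q ≠ 0 ∧ ¬ PEq P Q ∧ 0 < cl b P Q}.Finite := by
  obtain ⟨cover, ne1, ne2, hP, hα, hβ, hE, hH, β0, H0, eq1, eq2⟩ := hode
  set P' : Fin 3 → K := (P p)⁻¹ • P with hP'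
  have hPi : ∀ i, P' i = P i / P p := fun i => by
    rw [hP', Pi.smul_apply, smul_eq_mul, div_eq_inv_mul]
  have hP'p : P' p = 1 := by rw [hPi, div_self hP]
  have hP'0 : P' ≠ 0 := by
    intro h
    rw [h] at hP'p
    exact zero_ne_one hP'p
  have hP0 : P ≠ 0 := by
    rintro rfl
    exact hP rfl
  have hβ' : eval P' β ≠ 0 := by
    rw [hP', eval_smul_hom hβ]
    exact mul_ne_zero (pow_ne_zero _ (inv_ne_zero hP)) β0
  have hH' : eval P' H ≠ 0 := by
    rw [hP', eval_smul_hom hH]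
    exact mul_ne_zero (pow_ne_zero _ (inv_ne_zero hP)) H0
  have hfin : ({b : Place k K | nrm b P' ≠ 1} ∪ {b : Place k K | ordDer b δ ≠ 0} ∪
      {b : Place k K | ¬ gs b α ≤ 1} ∪ {b : Place k K | ¬ gs b β ≤ 1} ∪
      {b : Place k K | ¬ gs b E ≤ 1} ∪ {b : Place k K | ¬ gs b H ≤ 1} ∪
      {b : Place k K | b.val (eval P' β) ≠ 1} ∪ {b : Place k K | b.val (eval P' H) ≠ 1}).Finite := by
    refine ((((((Set.Finite.union ?_ ?_).union ?_).union ?_).union ?_).union ?_).union ?_).union ?_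
    · refine (nrm_support hK P' hP'0).subset ?_
      intro b hb h1
      apply hb
      have h2 : WithZero.log (nrm b P') = 0 := h1
      rw [← WithZero.exp_log (nrm_ne_zero hP'0), h2, WithZero.exp_zero]
    · exact Pool.Agent.Helper31.RRK.ordDer_finite hK hδ
    · exact OdeB_fin_gs hK α
    · exact OdeB_fin_gs hK β
    · exact OdeB_fin_gs hK E
    · exact OdeB_fin_gs hK H
    · exact OdeB_fin_val hK hβ'
    · exact OdeB_fin_val hK hH'
  refine hfin.subset ?_
  rintro b ⟨Q, hQT, hQ0, hPQ, hcl⟩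
  by_contra hcon
  simp only [Set.mem_union, Set.mem_ofPred_eq, not_or, not_not] at hcon
  obtain ⟨⟨⟨⟨⟨⟨⟨hn, hor⟩, hgα⟩, hgβ⟩, hgE⟩, hgH⟩, hvβ⟩, hvH⟩ := hcon
  -- the norm of `P`
  have hPn : nrm b P = b.val (P p) := by
    have h1 := nrm_smul b (P p) P'
    rw [hn, mul_one, hP', smul_smul, mul_inv_cancel₀ hP, one_smul] at h1
    exact h1
  have hcr0 := cross_ne_zero hP0 hQ0 hPQ
  have hcr : nrm b (crossProduct P Q) < nrm b P * nrm b Q := by
    rw [← WithZero.log_lt_log (nrm_ne_zero hcr0) (mul_ne_zero (nrm_ne_zero hP0) (nrm_ne_zero hQ0)),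
      WithZero.log_mul (nrm_ne_zero hP0) (nrm_ne_zero hQ0)]
    unfold cl at hcl
    omega
  have hPv : 0 < b.val (P p) := zero_lt_iff.2 (by simpa using hP)
  -- the norm of `Q`
  have hQn : nrm b Q = b.val (Q p) := by
    refine le_antisymm ?_ (val_le_nrm b Q p)
    by_contra hlt
    rw [not_le] at hlt
    obtain ⟨i, hi⟩ := exists_val_eq_nrm b Q
    have h1 : b.val (P p * Q i - P i * Q p) = b.val (P p) * nrm b Q := by
      have h2 : b.val (P i * Q p) < b.val (P p * Q i) := by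
        rw [map_mul, map_mul, hi]
        calc b.val (P i) * b.val (Q p) ≤ b.val (P p) * b.val (Q p) :=
              mul_le_mul' ((val_le_nrm b P i).trans hPn.le) le_rfl
          _ < b.val (P p) * nrm b Q := mul_lt_mul_of_pos_left hlt hPv
      rw [Valuation.map_sub_eq_of_lt_left _ h2, map_mul, hi]
    have h3 := Cl_val_pq b P Q p i
    rw [h1, ← hPn] at h3
    exact absurd h3 (not_le.2 hcr)
  have hQp : Q p ≠ 0 := by
    intro h
    apply nrm_ne_zero (b := b) hQ0
    rw [hQn, h, map_zero]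
  have hQv : 0 < b.val (Q p) := zero_lt_iff.2 (by simpa using hQp)
  set Q' : Fin 3 → K := (Q p)⁻¹ • Q with hQ'
  have hQi : ∀ i, Q' i = Q i / Q p := fun i => by
    rw [hQ', Pi.smul_apply, smul_eq_mul, div_eq_inv_mul]
  have hQ'n : nrm b Q' = 1 := by
    rw [hQ', nrm_smul, hQn, map_inv₀, inv_mul_cancel₀ hQv.ne']
  have hclose : ∀ i, b.val (Q' i - P' i) < 1 := by
    intro i
    have e : Q' i - P' i = (P p * Q i - P i * Q p) / (P p * Q p) := by
      rw [hQi, hPi]
      field_simp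
    rw [e, map_div₀, map_mul, ← hPn, ← hQn]
    have h1 := (Cl_val_pq b P Q p i).trans_lt hcr
    have h2 : 0 < nrm b P * nrm b Q :=
      mul_pos (zero_lt_iff.2 (nrm_ne_zero hP0)) (zero_lt_iff.2 (nrm_ne_zero hQ0))
    exact (div_lt_one₀ h2).2 h1
  have hR : ∀ i, OdeB_R b (P' i) (Q' i) := by
    intro i
    refine ⟨(val_le_nrm b P' i).trans hn.le, (val_le_nrm b Q' i).trans hQ'n.le, ?_⟩
    rw [Valuation.map_sub_swap]
    exact hclose i
  have hβQ : b.val (eval Q' β) = 1 := OdeB_eval_unit hgβ hR hvβ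
  have hHQ : b.val (eval Q' H) = 1 := OdeB_eval_unit hgH hR hvH
  have hαQ : b.val (eval Q' α) ≤ 1 := (OdeB_eval hgα hR).2.1
  have hEQ : b.val (eval Q' E) ≤ 1 := (OdeB_eval hgE hR).2.1
  have hQs : Q = Q p • Q' := by
    rw [hQ', smul_smul, mul_inv_cancel₀ hQp, one_smul]
  have e1 := eq1 Q hQT hQp
  have e2 := eq2 Q hQT hQp
  rw [← hQi, ← hQi, ← hPi, ← hPi] at e2
  rw [← hQi, ← hPi] at e1
  have sH : eval Q H = Q p ^ r * eval Q' H := by
    conv_lhs => rw [hQs]
    exact eval_smul_hom hH _ _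
  have sE : eval Q E = Q p ^ r * eval Q' E := by
    conv_lhs => rw [hQs]
    exact eval_smul_hom hE _ _
  have sα : eval Q α = Q p ^ e * eval Q' α := by
    conv_lhs => rw [hQs]
    exact eval_smul_hom hα _ _
  have sβ : eval Q β = Q p ^ e * eval Q' β := by
    conv_lhs => rw [hQs]
    exact eval_smul_hom hβ _ _
  have hqe : Q p ^ e ≠ 0 := pow_ne_zero _ hQp
  have hqr : Q p ^ r ≠ 0 := pow_ne_zero _ hQp
  have f1 : eval Q' H * δ (Q' j₁ - P' j₁) = eval Q' E * (Q' j₁ - P' j₁) := by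
    rw [sH, sE] at e1
    apply mul_left_cancel₀ hqr
    linear_combination e1
  have f2 : (Q' j₂ - P' j₂) * eval Q' β = - (Q' j₁ - P' j₁) * eval Q' α := by
    rw [sα, sβ] at e2
    apply mul_left_cancel₀ hqe
    linear_combination e2
  have hβQ0 : eval Q' β ≠ 0 := by
    intro h
    rw [h, map_zero] at hβQ
    exact zero_ne_one hβQ
  -- `q ≠ 0`
  have hq : Q' j₁ - P' j₁ ≠ 0 := by
    intro h
    rw [h, neg_zero, zero_mul] at f2
    have h2 : Q' j₂ - P' j₂ = 0 := (mul_eq_zero.1 f2).resolve_right hβQ0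
    apply hPQ
    have h3 : Q' = P' := by
      funext i
      rcases cover i with rfl | rfl | rfl
      · rw [hP'p, hQi, div_self hQp]
      · exact sub_eq_zero.1 h
      · exact sub_eq_zero.1 h2
    refine ⟨Q p * (P p)⁻¹, mul_ne_zero hQp (inv_ne_zero hP), ?_⟩
    rw [← smul_smul, ← hP', ← h3]
    exact hQs
  have hqlt := hclose j₁
  set q : K := Q' j₁ - P' j₁ with hqdef
  have hord : 0 < b.ord q := (b.ord_pos_iff hq).2 hqlt
  have hk : ((b.ord q : ℤ) : k) ≠ 0 := Int.cast_ne_zero.2 hord.ne'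
  obtain ⟨hδq, hoq⟩ := Pool.Agent.Helper31.RRK.ord_D_eq b hK hδ hk
  rw [hor, add_zero] at hoq
  -- the contradiction
  have h1 : b.val (δ q) ≤ b.val q := by
    have h2 := congrArg b.val f1
    rw [map_mul, map_mul, hHQ, one_mul] at h2
    rw [h2]
    calc b.val (eval Q' E) * b.val q ≤ 1 * b.val q := mul_le_mul' hEQ le_rfl
      _ = b.val q := one_mul _
  have h2 : b.ord q ≤ b.ord (δ q) := by
    rw [Place.ord, Place.ord, neg_le_neg_iff]
    exact (WithZero.log_le_log (by simpa using hδq) (by simpa using hq)).2 h1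
  omega

end Pool.Agent.Helper63.TK
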