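import Pool.Agent.Helper63.TK.Growth
import Pool.Agent.Helper63.TK.OdeB
import Pool.Agent.Helper63.TK.OdeC

/-!
# The case of a differential equation
-/

set_option autoImplicit false

namespace Pool.Agent.Helper63.TK

open MvPolynomial
open Pool.Agent.Helper16 (Place IsFunctionField)
open Pool.Agent.Helper36 (step iter iter_zero iter_succ iter_succ' iter_add iter_map)
open Pool.Agent.Helper30.TP

variable {k K : Type} [Field k] [IsAlgClosed k] [Field K] [Algebra k K]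

/-- A bound for the contacts with a fixed point, when the points satisfy a regular differential
equation. -/
theorem ode_contact [CharZero k] (hK : IsFunctionField k K) {δ : Derivation k K K} (hδ : δ ≠ 0)
    {P : Fin 3 → K} (hP : P ≠ 0) {p j₁ j₂ : Fin 3} {e r : ℕ}
    {α β E H : MvPolynomial (Fin 3) K}
    {T : Set (Fin 3 → K)} (hode : Ode δ P p j₁ j₂ e r α β E H T) :
    ∃ C : ℤ, ∀ Q ∈ T, Q ≠ 0 → ¬ PEq P Q →
      ht k P + ht k Q - ht k (crossProduct P Q) ≤ C := by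
  classical
  set B : Set (Place k K) := {b : Place k K | ∃ Q ∈ T, Q ≠ 0 ∧ ¬ PEq P Q ∧ 0 < cl b P Q} with hB
  have hBfin : B.Finite := ode_almost hK hδ hode
  choose c hc using ode_bounded hK hδ hode
  set c' : Place k K → ℤ := fun b => Set.indicator B (fun b => max 0 (c b)) b with hc'
  refine ⟨∑ᶠ b, c' b, fun Q hQT hQ hPQ => ?_⟩
  rw [← finsum_cl hK hP hQ hPQ]
  refine finsum_le_finsum' (cl_support hK hP hQ hPQ) ?_ fun b => ?_
  · refine hBfin.subset fun b hb => ?_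
    by_contra hcon
    apply hb
    simp only [hc', Set.indicator_of_notMem hcon]
  · by_cases hbB : b ∈ B
    · simp only [hc', Set.indicator_of_mem hbB]
      exact (hc b Q hQT hQ hPQ).trans (le_max_right _ _)
    · simp only [hc', Set.indicator_of_notMem hbB]
      by_contra hcon
      exact hbB ⟨Q, hQT, hQ, hPQ, not_le.1 hcon⟩

theorem ode_case [CharZero k] [Algebra K ℂ] (hK : IsFunctionField k K) {d : ℕ}
    {F : Fin 3 → MvPolynomial (Fin 3) K} (hF : IsEndo d fun i => map (algebraMap K ℂ) (F i))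
    {x : Fin 3 → K} (hx : x ≠ 0) (hunb : ∀ B : ℤ, ∃ n, B < ht k (iter F x n))
    {δ : Derivation k K K} (hδ : δ ≠ 0) {S : Set ℕ} (hS : S.Infinite)
    {g : MvPolynomial (Fin 3) K} {D : ℕ} (hg : g.IsHomogeneous D) (hirr : Irreducible g)
    (hgx : ∀ n ∈ S, eval (iter F x n) g = 0) {u : ℕ} {U : MvPolynomial (Fin 3) K}
    (hU : U.IsHomogeneous u) {A : Fin 3 → Fin 3 → MvPolynomial (Fin 3) K}
    (hA : ∀ i j, (A i j).IsHomogeneous (u + 2)) (hgU : ¬ g ∣ U)
    (hrel : ∀ n ∈ S, ∀ i j, eval (iter F x n) U * wr δ i j (iter F x n) =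
      eval (iter F x n) (A i j)) : False := by
  classical
  have : CharZero K := (algebraMap K ℂ).charZero
  have hne : ∀ n, iter F x n ≠ 0 := fun n => iter_ne_zeroK hF hx n
  have hdist := distinct_of_unbounded hK hF hx hunb
  have hsing := finite_singular (fun n (_ : n ∈ S) => hne n) (fun n _ n' _ h => hdist n n' h) hg
    hirr hgx hU hgU
  set S' : Set ℕ := S \ {n | n ∈ S ∧ (eval (iter F x n) U = 0 ∨
    ∀ j, eval (iter F x n) (pderiv j g) = 0)} with hS'
  have hS'inf : S'.Infinite := hS.sdiff hsing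
  obtain ⟨Γ, C, E, hΓS, hE, hlow⟩ := sum_ht_cross_le hK hS'inf (fun n _ => hne n)
    (fun n _ n' _ h => hdist n n' h) hg hirr (fun n hn => hgx n hn.1) 1
  have hmem : ∀ n ∈ S', eval (iter F x n) U ≠ 0 ∧ ∃ j, eval (iter F x n) (pderiv j g) ≠ 0 := by
    intro n hn
    have h1 : ¬ (eval (iter F x n) U = 0 ∨ ∀ j, eval (iter F x n) (pderiv j g) = 0) :=
      fun h => hn.2 ⟨hn.1, h⟩
    push Not at h1
    exact h1
  have hbd : ∀ i ∈ Γ, ∃ Ci : ℤ, ∀ n ∈ S', n ≠ i →
      ht k (iter F x i) + ht k (iter F x n) - ht k (crossProduct (iter F x i) (iter F x n)) ≤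
        Ci := by
    intro i hi
    obtain ⟨hUi, hsm⟩ := hmem i (hΓS hi)
    obtain ⟨p, j₁, j₂, e, r, α, β, E', H, hode⟩ := exists_ode δ (hne i) hg (hgx i (hΓS hi).1) hsm
      hU hA hUi (hrel i (hΓS hi).1)
    obtain ⟨Ci, hCi⟩ := ode_contact hK hδ (hne i) hode
    refine ⟨Ci, fun n hn hni => hCi _ ⟨hgx n hn.1, (hmem n hn).1, hrel n hn.1⟩ (hne n)
      (hdist i n hni.symm)⟩
  choose! Ci hCi using hbd
  obtain ⟨n₁, hn₁⟩ := ht_growth hK hF hx hunb 1
  set M : ℤ := ∑ i ∈ Γ, Ci i + C - ∑ i ∈ Γ, ht k (iter F x i) with hM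
  obtain ⟨n, hnS, hn⟩ := (hS'inf.sdiff ((hE.union Γ.finite_toSet).union
    (Set.finite_le_nat (n₁ + M.toNat)))).nonempty
  rw [Set.mem_union, Set.mem_union, not_or, not_or] at hn
  obtain ⟨⟨hnE, hnΓ⟩, hnM⟩ := hn
  have hnM' : ¬ n ≤ n₁ + M.toNat := hnM
  have h1 := hlow n hnS hnE
  have h2 : ∑ i ∈ Γ, (ht k (iter F x i) + ht k (iter F x n) -
      ht k (crossProduct (iter F x i) (iter F x n))) ≤ ∑ i ∈ Γ, Ci i :=
    Finset.sum_le_sum fun i hi => hCi i hi n hnS (fun h => hnΓ (h ▸ hi))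
  rw [Finset.sum_sub_distrib, Finset.sum_add_distrib, Finset.sum_const, nsmul_eq_mul] at h2
  have h3 := hn₁ n (by omega)
  have h4 := Int.self_le_toNat M
  push_cast at h1
  have h5 : ht k (iter F x n) ≤ M := by
    rw [hM]
    linarith
  omega

end Pool.Agent.Helper63.TK
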