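import Pool.Agent.Helper63.TK.MainA
import Pool.Agent.Helper63.TK.MainB
import Pool.Agent.Helper63.TK.Dich
import Pool.Agent.Helper63.TK.Etale

/-!
# The Dynamical Mordell-Lang property over function fields
-/

set_option autoImplicit false

namespace Pool.Agent.Helper63.TK

open MvPolynomial
open Pool.Agent.Helper16 (Place IsFunctionField)
open Pool.Agent.Helper36 (step iter iter_zero iter_succ iter_succ' iter_add iter_map)
open Pool.Agent.Helper30.TP

theorem form_pos {K : Type} [Field K] {g : MvPolynomial (Fin 3) K} {D : ℕ}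
    (hg : g.IsHomogeneous D) (hirr : Irreducible g) : 0 < D := by
  rcases Nat.eq_zero_or_pos D with h0 | h0
  · subst h0
    exfalso
    have h1 : g.totalDegree = 0 := Nat.le_zero.1 hg.totalDegree_le
    rw [totalDegree_eq_zero_iff_eq_C] at h1
    have h2 : coeff 0 g ≠ 0 := by
      intro h
      rw [h, C_0] at h1
      exact hirr.ne_zero h1
    apply hirr.not_isUnit
    rw [h1]
    exact (isUnit_iff_ne_zero.2 h2).map C
  · exact h0

/-- If at infinitely many places of a set of times a form vanishes, one of its irreducible factors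
does. -/
theorem exists_factorK {K : Type} [Field K] (x : ℕ → Fin 3 → K)
    {P : MvPolynomial (Fin 3) K} {e : ℕ} (hP : P.IsHomogeneous e)
    (hP0 : P ≠ 0) (hinf : {n | eval (x n) P = 0}.Infinite) :
    ∃ (ρ : MvPolynomial (Fin 3) K) (t : ℕ), ρ.IsHomogeneous t ∧ Irreducible ρ ∧
      {n | eval (x n) ρ = 0}.Infinite := by
  induction e using Nat.strong_induction_on generalizing P with
  | _ e ih =>
    by_cases hirr : Irreducible P
    · exact ⟨P, e, hP, hirr, hinf⟩
    have hnu : ¬ IsUnit P := by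
      intro h
      obtain ⟨n, hn⟩ := hinf.nonempty
      have hn' : eval (x n) P = 0 := hn
      have := h.map (eval (x n))
      rw [hn'] at this
      exact not_isUnit_zero this
    rw [irreducible_iff] at hirr
    push Not at hirr
    obtain ⟨a, b, hab, ha, hb⟩ := hirr hnu
    obtain ⟨i, j, hai, hbj, hij⟩ := form_of_mul hP hP0 hab
    have ha0 : a ≠ 0 := fun h => hP0 (by rw [hab, h, zero_mul])
    have hb0 : b ≠ 0 := fun h => hP0 (by rw [hab, h, mul_zero])
    have hunit : ∀ (c : MvPolynomial (Fin 3) K), c.IsHomogeneous 0 → c ≠ 0 → IsUnit c := by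
      intro c hc hc0
      have h1 := totalDegree_eq_zero_iff_eq_C.1 (Nat.le_zero.1 hc.totalDegree_le)
      rw [h1]
      exact (Ne.isUnit fun h => hc0 (by rw [h1, h, C_0])).map C
    have hi : i ≠ 0 := fun h => ha (hunit a (h ▸ hai) ha0)
    have hj : j ≠ 0 := fun h => hb (hunit b (h ▸ hbj) hb0)
    have hsub : {n | eval (x n) P = 0} ⊆ {n | eval (x n) a = 0} ∪ {n | eval (x n) b = 0} := by
      intro n hn
      have hn' : eval (x n) P = 0 := hn
      rw [hab, map_mul, mul_eq_zero] at hn'
      exact hn'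
    rcases Set.infinite_union.1 (hinf.mono hsub) with h | h
    · exact ih i (by omega) hai ha0 h
    · exact ih j (by omega) hbj hb0 h

/-- A curve over `K` contains only finitely many points of the orbit, when no cycle avoids the
critical curve. -/
theorem finite_returns {k K : Type} [Field k] [IsAlgClosed k] [CharZero k] [Field K] [Algebra k K]
    [Algebra K ℂ] (hK : IsFunctionField k K) {d : ℕ}
    {F : Fin 3 → MvPolynomial (Fin 3) K} (hF : IsEndo d fun i => map (algebraMap K ℂ) (F i))
    {x : Fin 3 → K} (hx : x ≠ 0) (hunb : ∀ B : ℤ, ∃ n, B < ht k (iter F x n))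
    (hcrit : {n | eval (iter F x n) (jf F) = 0}.Finite) (hne : NoEtale k d F x)
    {P : MvPolynomial (Fin 3) K} {e : ℕ} (hP : P.IsHomogeneous e) (hP0 : P ≠ 0) :
    {n | eval (iter F x n) P = 0}.Finite := by
  by_contra hinf
  obtain ⟨g, D, hg, hirr, hinf'⟩ := exists_factorK (iter F x) hP hP0 hinf
  have hne0 : ∀ n, iter F x n ≠ 0 := fun n => iter_ne_zeroK hF hx n
  have hdist := distinct_of_unbounded hK hF hx hunb
  obtain ⟨n₀, hn₀⟩ : ∃ n₀, ∀ n, n₀ ≤ n → eval (iter F x n) (jf F) ≠ 0 := by
    obtain ⟨m, hm⟩ := hcrit.bddAbove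
    refine ⟨m + 1, fun n hn h => ?_⟩
    have := hm h
    omega
  set S : Set ℕ := {n | eval (iter F x n) g = 0} \ {n | n < n₀} with hS
  have hSinf : S.Infinite := hinf'.sdiff (Set.finite_lt_nat n₀)
  obtain ⟨δ, hδ⟩ := Pool.Agent.Helper31.RRK.exists_ne_zero hK
  rcases dichotomy δ hSinf (fun n _ => hne0 n) (fun n _ n' _ h => hdist n n' h) hg hirr
    (fun n hn => hn.1) (by omega : 2 ≤ D ^ 2 + 2 * D + 6) with
    ⟨i, j, S', hS', hS'inf, hα⟩ | ⟨S', u, U, A, hS', hS'inf, hU, hA, hgU, hrel⟩
  · exact aux_case hK hF hx hunb (good_finite hK hF) hne hδ hn₀ hS'inf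
      (fun n hn => not_lt.1 (hS' hn).2) hg hirr (form_pos hg hirr) (fun n hn => (hS' hn).1) hα
  · exact ode_case hK hF hx hunb hδ hS'inf hg hirr (fun n hn => (hS' hn).1) hU hA hgU hrel

/-- The Dynamical Mordell-Lang property for points of unbounded height over a function field, whose
orbit meets the critical curve only finitely often. -/
theorem tk_dml {k K : Type} [Field k] [IsAlgClosed k] [Field K] [Algebra k K] [Algebra k ℂ]
    [Algebra K ℂ] [IsScalarTower k K ℂ] (hK : IsFunctionField k K) {d : ℕ}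
    {F : Fin 3 → MvPolynomial (Fin 3) K} (hF : IsEndo d fun i => map (algebraMap K ℂ) (F i))
    {x : Fin 3 → K} (hx : x ≠ 0) (hunb : ∀ B : ℤ, ∃ n, B < ht k (iter F x n))
    (hcrit : {n | eval (iter F x n) (jf F) = 0}.Finite) (c : ℂ) (hc : c ≠ 0) :
    Pool.Agent.Helper38.Sym.DMLgen (fun i => map (algebraMap K ℂ) (F i))
      (fun i => c * algebraMap K ℂ (x i)) := by
  classical
  have hchar : CharZero k := (algebraMap k ℂ).charZero
  have hhom : ∀ i, (F i).IsHomogeneous d := fun i => homog_of_endo hF i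
  by_cases hne : NoEtale k d F x
  · intro S hS
    -- the orbit
    have horb : ∀ n, (fun (x : Fin 3 → ℂ) (i : Fin 3) =>
        eval x (map (algebraMap K ℂ) (F i)))^[n] (fun i => c * algebraMap K ℂ (x i)) =
        c ^ d ^ n • fun i => algebraMap K ℂ (iter F x n i) := by
      intro n
      have h1 : (fun (x : Fin 3 → ℂ) (i : Fin 3) => eval x (map (algebraMap K ℂ) (F i))) =
          step fun i => map (algebraMap K ℂ) (F i) := by
        funext x i
        rfl
      rw [h1]
      have h2 : (fun i => c * algebraMap K ℂ (x i)) = c • fun i => algebraMap K ℂ (x i) := rfl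
      rw [h2]
      change iter (fun i => map (algebraMap K ℂ) (F i)) (c • fun i => algebraMap K ℂ (x i)) n = _
      rw [iter_smul hF]
      congr 1
      induction n with
      | zero => rfl
      | succ n ih =>
        rw [iter_succ, ih]
        funext i
        change eval _ (map (algebraMap K ℂ) (F i)) = algebraMap K ℂ (iter F x (n + 1) i)
        rw [iter_succ]
        exact (Pool.Agent.Helper38.Sym.map_eval_gen (algebraMap K ℂ) _ _).symm
    have hiff : ∀ n, ∀ g ∈ S, (eval ((fun (x : Fin 3 → ℂ) (i : Fin 3) =>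
        eval x (map (algebraMap K ℂ) (F i)))^[n] (fun i => c * algebraMap K ℂ (x i))) g = 0 ↔
        eval (fun i => algebraMap K ℂ (iter F x n i)) g = 0) := by
      intro n g hg
      obtain ⟨e, he⟩ := hS g hg
      rw [horb, eval_smul_hom he, mul_eq_zero]
      exact ⟨fun h => h.resolve_left (pow_ne_zero _ (pow_ne_zero _ hc)), Or.inr⟩
    have hset : {n : ℕ | ∀ g ∈ S, eval ((fun (x : Fin 3 → ℂ) (i : Fin 3) =>
        eval x (map (algebraMap K ℂ) (F i)))^[n] (fun i => c * algebraMap K ℂ (x i))) g = 0} =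
        {n : ℕ | ∀ g ∈ S, eval (fun i => algebraMap K ℂ (iter F x n i)) g = 0} := by
      ext n
      exact forall₂_congr fun g hg => hiff n g hg
    rw [hset]
    by_cases hall : ∀ g ∈ S, g = 0
    · refine ⟨{(1, 0)}, ?_⟩
      ext n
      simp only [Set.mem_setOf_eq, Finset.mem_singleton, exists_eq_left]
      exact ⟨fun _ => ⟨n, by ring⟩, fun _ g hg => by rw [hall g hg, map_zero]⟩
    push Not at hall
    obtain ⟨g₁, hg₁, hg₁0⟩ := hall
    obtain ⟨e₁, he₁⟩ := hS g₁ hg₁
    obtain ⟨ℓ, hℓ⟩ : ∃ ℓ : ℂ →ₗ[K] K, lam ℓ g₁ ≠ 0 := by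
      obtain ⟨s, hs⟩ := ultra_expand (Module.Basis.ofVectorSpace K ℂ) g₁
      by_contra hcon
      push Not at hcon
      apply hg₁0
      rw [hs]
      apply Finset.sum_eq_zero
      intro l _
      rw [hcon, map_zero, mul_zero]
    have hfin := finite_returns hK hF hx hunb hcrit hne (ultra_lam_hom ℓ he₁) hℓ
    have hfin2 : {n : ℕ | ∀ g ∈ S, eval (fun i => algebraMap K ℂ (iter F x n i)) g = 0}.Finite := by
      refine hfin.subset fun n hn => ?_
      change eval (iter F x n) (lam ℓ g₁) = 0
      rw [ultra_eval_lam, hn g₁ hg₁, map_zero]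
    refine ⟨hfin2.toFinset.image fun n => (0, n), ?_⟩
    ext n
    simp only [Finset.mem_image, Set.Finite.mem_toFinset]
    constructor
    · intro hn
      exact ⟨(0, n), ⟨n, hn, rfl⟩, 0, by simp⟩
    · rintro ⟨q, ⟨m, hm, rfl⟩, t, rfl⟩
      simpa using hm
  · unfold NoEtale at hne
    push Not at hne
    obtain ⟨b, f, z, hf, hz, n, N, hN, hper, hdet⟩ := hne
    exact etale_dml hK hhom x hx b f hf z hz n N hN hper hdet c hc

end Pool.Agent.Helper63.TK
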