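import Pool.Agent.Helper63.TK.Defs
import Pool.Agent.Helper30.TP.Dim3

/-!
# The auxiliary forms
-/

set_option autoImplicit false

namespace Pool.Agent.Helper63.TK

open MvPolynomial
open Pool.Agent.Helper30.TP

variable {K : Type} [Field K]

theorem AuxF_arith {D m w c r a : ℕ} (hD : 0 < D) (hm : D ≤ m)
    (hcard : c + (m - D + 2).choose 2 = (m + 2).choose 2) (hw : D + 2 ≤ w)
    (hmw : m + D + 1 ≤ 2 * w)
    (h1 : r + a = (w + 2).choose 2 + (w - 2 + 2).choose 2) (h2 : r ≤ c)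
    (h3 : a ≤ (w - D + 2).choose 2 + (w - 2 - D + 2).choose 2) : False := by
  obtain ⟨u, rfl⟩ := Nat.exists_eq_add_of_le hm
  obtain ⟨t, rfl⟩ := Nat.exists_eq_add_of_le hw
  have c1 := Dim3_choose u
  have c2 := Dim3_choose (D + u)
  have c3 := Dim3_choose (D + 2 + t)
  have c4 := Dim3_choose (D + t)
  have c5 := Dim3_choose (t + 2)
  have c6 := Dim3_choose t
  rw [show D + u - D = u by omega] at hcard
  rw [show D + 2 + t - 2 = D + t by omega] at h1
  rw [show D + 2 + t - D = t + 2 by omega, show D + 2 + t - 2 - D = t by omega] at h3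
  have h4 := Nat.mul_le_mul_left D hmw
  nlinarith

theorem exists_aux {x : ℕ → Fin 3 → K} {Γ : Finset ℕ} {g : MvPolynomial (Fin 3) K} {D : ℕ}
    (hg : g.IsHomogeneous D) (hg0 : g ≠ 0) (hD : 0 < D) {m w : ℕ} (hm : D ≤ m)
    (hcard : Γ.card + (m - D + 2).choose 2 = (m + 2).choose 2) (hw : D + 2 ≤ w)
    (hmw : m + D + 1 ≤ 2 * w) (v : ℕ → K) :
    ∃ A U : MvPolynomial (Fin 3) K, A.IsHomogeneous w ∧ U.IsHomogeneous (w - 2) ∧
      ¬ (g ∣ A ∧ g ∣ U) ∧ ∀ i ∈ Γ, eval (x i) A = eval (x i) U * v i := by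
  classical
  obtain ⟨hfd1, hfr1⟩ := finrank_forms K w
  obtain ⟨hfd2, hfr2⟩ := finrank_forms K (w - 2)
  obtain ⟨hfd3, hfr3⟩ := finrank_forms K (w - D)
  obtain ⟨hfd4, hfr4⟩ := finrank_forms K (w - 2 - D)
  have e1 : D + (w - D) = w := by omega
  have e2 : D + (w - 2 - D) = w - 2 := by omega
  let Φ : (homogeneousSubmodule (Fin 3) K w × homogeneousSubmodule (Fin 3) K (w - 2)) →ₗ[K]
      (Γ → K) :=
    (Dim3_ev x Γ w).coprod
      ((LinearMap.pi fun i : Γ => (-v i) • LinearMap.proj i) ∘ₗ Dim3_ev x Γ (w - 2))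
  have hΦ : ∀ (p : homogeneousSubmodule (Fin 3) K w × homogeneousSubmodule (Fin 3) K (w - 2))
      (i : Γ), Φ p i = eval (x i) (p.1 : MvPolynomial (Fin 3) K) -
        eval (x i) (p.2 : MvPolynomial (Fin 3) K) * v i := by
    intro p i
    simp only [Φ, LinearMap.coprod_apply, Pi.add_apply, LinearMap.comp_apply, LinearMap.pi_apply,
      LinearMap.smul_apply, LinearMap.proj_apply, Dim3_ev_apply, smul_eq_mul]
    ring
  let M : (homogeneousSubmodule (Fin 3) K (w - D) × homogeneousSubmodule (Fin 3) K (w - 2 - D))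
      →ₗ[K] (homogeneousSubmodule (Fin 3) K w × homogeneousSubmodule (Fin 3) K (w - 2)) :=
    (Dim3_mul g hg e1).prodMap (Dim3_mul g hg e2)
  have hne : ¬ Φ.ker ≤ M.range := by
    intro hle
    have h1 := LinearMap.finrank_range_add_finrank_ker Φ
    rw [Module.finrank_prod, hfr1, hfr2] at h1
    have h2 : Module.finrank K Φ.range ≤ Γ.card := by
      have := Submodule.finrank_le Φ.range
      rwa [Module.finrank_fintype_fun_eq_card, Fintype.card_coe] at this
    have h3 : Module.finrank K Φ.ker ≤ (w - D + 2).choose 2 + (w - 2 - D + 2).choose 2 := by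
      refine (Submodule.finrank_mono hle).trans ?_
      have := LinearMap.finrank_range_le M
      rwa [Module.finrank_prod, hfr3, hfr4] at this
    exact AuxF_arith hD hm hcard hw hmw h1 h2 h3
  obtain ⟨⟨A, U⟩, hk, hr⟩ := SetLike.not_le_iff_exists.1 hne
  have hA := (mem_homogeneousSubmodule _ _).1 A.2
  have hU := (mem_homogeneousSubmodule _ _).1 U.2
  have key : ∀ {n : ℕ} (hn : D ≤ n) (T : homogeneousSubmodule (Fin 3) K n),
      g ∣ (T : MvPolynomial (Fin 3) K) → ∃ Q : homogeneousSubmodule (Fin 3) K (n - D),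
        (T : MvPolynomial (Fin 3) K) = g * (Q : MvPolynomial (Fin 3) K) := by
    intro n hn T hT
    by_cases h0 : (T : MvPolynomial (Fin 3) K) = 0
    · exact ⟨0, by rw [h0]; simp⟩
    · obtain ⟨-, Q, hQ, hQ2⟩ := Dim3_cofactor hg hg0 ((mem_homogeneousSubmodule _ _).1 T.2) h0 hT
      exact ⟨⟨Q, (mem_homogeneousSubmodule _ _).2 hQ⟩, hQ2⟩
  refine ⟨A, U, hA, hU, ?_, ?_⟩
  · rintro ⟨h1, h2⟩
    obtain ⟨Q1, hQ1⟩ := key (by omega) A h1
    obtain ⟨Q2, hQ2⟩ := key (by omega) U h2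
    apply hr
    refine ⟨(Q1, Q2), ?_⟩
    refine Prod.ext (Subtype.ext ?_) (Subtype.ext ?_)
    · change ((Dim3_mul g hg e1 Q1 : homogeneousSubmodule (Fin 3) K w) :
        MvPolynomial (Fin 3) K) = A
      rw [Dim3_mul_coe, hQ1]
    · change ((Dim3_mul g hg e2 Q2 : homogeneousSubmodule (Fin 3) K (w - 2)) :
        MvPolynomial (Fin 3) K) = U
      rw [Dim3_mul_coe, hQ2]
  · intro i hi
    have h1 := congrFun (LinearMap.mem_ker.1 hk) ⟨i, hi⟩
    rw [hΦ] at h1
    exact sub_eq_zero.1 h1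

end Pool.Agent.Helper63.TK
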