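import Pool.Agent.Helper30.TP.Jac
import Pool.Agent.Helper30.TP.PtHeight
import Pool.Agent.Helper30.TP.FormHeight
import Pool.Agent.Helper31.RRK.Der

/-!
# Orbits of endomorphisms of the projective plane over a function field: definitions

`k` is an algebraically closed field, `K` a function field of one variable over `k`, and the
endomorphism `F` of the projective plane is defined over `K`.
-/

set_option autoImplicit false

namespace Pool.Agent.Helper63.TK

open MvPolynomial
open Pool.Agent.Helper16 (Place IsFunctionField)
open Pool.Agent.Helper36 (step iter)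
open Pool.Agent.Helper30.TP

variable {k K : Type} [Field k] [Field K] [Algebra k K]

/-- The polynomial `P` over `K` specialises at `b` to the polynomial `p` over `k`. -/
def RedP (b : Place k K) (P : MvPolynomial (Fin 3) K) (p : MvPolynomial (Fin 3) k) : Prop :=
  ∀ m, b.val (P.coeff m - algebraMap k K (p.coeff m)) < 1

/-- The polynomials `F` over `K` specialise at `b` to an endomorphism `f` of the projective plane
over `k`, of the same degree. -/
structure GoodRed (d : ℕ) (b : Place k K) (F : Fin 3 → MvPolynomial (Fin 3) K)
    (f : Fin 3 → MvPolynomial (Fin 3) k) : Prop where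
  endo : IsEndo d f
  red : ∀ i, RedP b (F i) (f i)

/-- The place `b` has good reduction. -/
def Good (d : ℕ) (b : Place k K) (F : Fin 3 → MvPolynomial (Fin 3) K) : Prop :=
  ∃ f, GoodRed d b F f

/-- The order at `b` of the Jacobian determinant at the point `y`. -/
noncomputable def joK (d : ℕ) (F : Fin 3 → MvPolynomial (Fin 3) K) (b : Place k K)
    (y : Fin 3 → K) : ℤ :=
  3 * ((d : ℤ) - 1) * WithZero.log (nrm b y) - WithZero.log (b.val (eval y (jf F)))

/-- The Wronskians of the coordinates. -/
def wr (δ : Derivation k K K) (i j : Fin 3) (x : Fin 3 → K) : K :=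
  x i * δ (x j) - x j * δ (x i)

/-- There is no place of good reduction at which the point becomes preperiodic, with a cycle
outside the critical curve. -/
def NoEtale (k : Type) {K : Type} [Field k] [Field K] [Algebra k K] (d : ℕ)
    (F : Fin 3 → MvPolynomial (Fin 3) K) (x : Fin 3 → K) : Prop :=
  ∀ (b : Place k K) (f : Fin 3 → MvPolynomial (Fin 3) k) (z : Fin 3 → k), GoodRed d b F f →
    Red b x z → ∀ n N : ℕ, 0 < N → PEq (iter f z n) (iter f z (n + N)) →
      (mult f (iter f z n) N).det = 0

end Pool.Agent.Helper63.TK
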