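import Pool.Agent.Helper63.TK.Growth
import Pool.Agent.Helper63.TK.JacK
import Pool.Agent.Helper63.TK.WLoc
import Pool.Agent.Helper63.TK.AuxF
import Pool.Agent.Helper63.TK.LowM
import Pool.Agent.Helper30.TP.Sup

/-!
# The case without differential equation
-/

set_option autoImplicit false

namespace Pool.Agent.Helper63.TK

open MvPolynomial
open Pool.Agent.Helper16 (Place IsFunctionField)
open Pool.Agent.Helper36 (step iter iter_zero iter_succ iter_succ' iter_add iter_map)
open Pool.Agent.Helper30.TP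

variable {k K : Type} [Field k] [IsAlgClosed k] [Field K] [Algebra k K]

theorem aux_case [CharZero k] [Algebra K ℂ] (hK : IsFunctionField k K) {d : ℕ}
    {F : Fin 3 → MvPolynomial (Fin 3) K} (hF : IsEndo d fun i => map (algebraMap K ℂ) (F i))
    {x : Fin 3 → K} (hx : x ≠ 0) (hunb : ∀ B : ℤ, ∃ n, B < ht k (iter F x n))
    (hbad : {b : Place k K | ¬ Good d b F}.Finite)
    (hne : NoEtale k d F x) {δ : Derivation k K K} (hδ : δ ≠ 0) {n₀ : ℕ}
    (hcrit : ∀ n, n₀ ≤ n → eval (iter F x n) (jf F) ≠ 0) {S : Set ℕ} (hS : S.Infinite)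
    (hSn : ∀ n ∈ S, n₀ ≤ n)
    {g : MvPolynomial (Fin 3) K} {D : ℕ} (hg : g.IsHomogeneous D) (hirr : Irreducible g)
    (hD : 0 < D) (hgx : ∀ n ∈ S, eval (iter F x n) g = 0) {i₀ j₀ : Fin 3}
    (halpha : ∀ A U : MvPolynomial (Fin 3) K, A.IsHomogeneous (D ^ 2 + 2 * D + 6) →
      U.IsHomogeneous (D ^ 2 + 2 * D + 6 - 2) → ¬ (g ∣ A ∧ g ∣ U) →
        {n | n ∈ S ∧ eval (iter F x n) A - eval (iter F x n) U * wr δ i₀ j₀ (iter F x n) = 0}.Finite) :
    False := by
  classical
  have : CharZero K := (algebraMap K ℂ).charZero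
  have hne0 : ∀ n, iter F x n ≠ 0 := fun n => iter_ne_zeroK hF hx n
  have hdist := distinct_of_unbounded hK hF hx hunb
  have hhom : ∀ i, (F i).IsHomogeneous d := fun i => homog_of_endo hF i
  have hd2 : (2 : ℤ) ≤ d := by exact_mod_cast hF.two_le
  have hd1 : 1 ≤ d := by have := hF.two_le; omega
  set w : ℕ := D ^ 2 + 2 * D + 6 with hw
  obtain ⟨Γ, C, E, hΓS, hE, hcard, hlow⟩ := sum_ht_cross_le_card hK hS (fun n _ => hne0 n)
    (fun n _ n' _ h => hdist n n' h) hg hirr hgx (D ^ 2 + 2 * D + 10)
  obtain ⟨A, U, hA, hU, hAU, hrel⟩ := exists_aux (x := iter F x) (Γ := Γ) hg hirr.ne_zero hD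
    (m := D ^ 2 + (D ^ 2 + 2 * D + 10)) (w := w) (by nlinarith) hcard (by rw [hw]; nlinarith)
    (by rw [hw]; nlinarith) (fun n => wr δ i₀ j₀ (iter F x n))
  have hE2 := halpha A U hA hU hAU
  set ψ : ℕ → K := fun n => eval (iter F x n) A - eval (iter F x n) U * wr δ i₀ j₀ (iter F x n)
    with hψ
  obtain ⟨c, hcs, hc0, hc1, hc2⟩ := wloc hK δ hδ i₀ j₀ (by rw [hw]; omega : 2 ≤ w) hA hU
  obtain ⟨C₁, hC₁0, hC₁⟩ := sum_ht_le hK hF hx
  set B : Set (Place k K) := {b : Place k K | ¬ Good d b F} with hB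
  obtain ⟨C₂, hC₂⟩ := finsum_joK_le hK hhom hd1 B hbad
  set Cst : ℤ := ∑ i ∈ Γ, ∑ j ∈ Γ.erase i, ∑ᶠ b : Place k K, cl b (iter F x i) (iter F x j) with hCst
  set K₂ : ℤ := ∑ᶠ b, c b + hbad.toFinset.card + Cst + C - ∑ i ∈ Γ, ht k (iter F x i) with hK₂
  -- the key estimate
  have hkey : ∀ n ∈ S, n ∉ E → ψ n ≠ 0 → (∀ i ∈ Γ, i < n) →
      ht k (iter F x n) ≤ (3 * C₁ + max C₂ 0 + max K₂ 0) * (n + 1) := by
    intro n hn hnE hψn hlt
    have hn0 : n₀ ≤ n := hSn n hn
    set J : Place k K → ℤ := fun b => ∑ l ∈ Finset.Ico n₀ n,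
      Set.indicator Bᶜ (fun b => joK d F b (iter F x l)) b + Set.indicator B (fun _ => 1) b with hJ
    set M : Place k K → ℤ := fun b => w * WithZero.log (nrm b (iter F x n)) + c b -
      WithZero.log (b.val (ψ n)) with hM
    have hjo0 : ∀ b, ∀ l ∈ Finset.Ico n₀ n,
        0 ≤ Set.indicator Bᶜ (fun b => joK d F b (iter F x l)) b := by
      intro b l hl
      refine Set.indicator_nonneg (fun b hb => ?_) b
      have hb' : Good d b F := not_not.1 hb
      exact joK_nonneg hhom hd1 hb' (hcrit l (Finset.mem_Ico.1 hl).1)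
    have hJ0 : ∀ b, 0 ≤ J b := fun b =>
      add_nonneg (Finset.sum_nonneg (hjo0 b)) (Set.indicator_nonneg (fun _ _ => by norm_num) b)
    have hM0 : ∀ b, 0 ≤ M b := fun b => by
      have := hc1 b (iter F x n) (hne0 n) hψn
      rw [hM]
      change 0 ≤ _
      linarith
    have hloc : ∀ b : Place k K, ∑ i ∈ Γ, cl b (iter F x i) (iter F x n) ≤
        (M b + J b) + ∑ i ∈ Γ, ∑ j ∈ Γ.erase i, cl b (iter F x i) (iter F x j) := by
      intro b
      refine sum_cl_le b Γ (iter F x) (iter F x n) (fun i _ => hne0 i) (hne0 n)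
        (fun i hi => hdist i n (hlt i hi).ne) (fun i _ j _ hij => hdist i j hij)
        (add_nonneg (hM0 b) (hJ0 b)) ?_
      intro i hi
      by_cases hpos : 0 < cl b (iter F x i) (iter F x n)
      · have h1 : cl b (iter F x i) (iter F x n) - 1 ≤ M b := by
          have := hc2 b (iter F x i) (iter F x n) (hne0 i) (hne0 n) (hdist i n (hlt i hi).ne)
            (by rw [hrel i hi, sub_self]) hψn
          rw [hM]
          change _ ≤ _
          linarith
        have h2 : 1 ≤ J b := by
          by_cases hb : b ∈ B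
          · have h3 : Set.indicator B (fun _ : Place k K => (1 : ℤ)) b = 1 :=
              Set.indicator_of_mem hb _
            have h4 := Finset.sum_nonneg (hjo0 b)
            rw [hJ]
            change 1 ≤ _ + _
            rw [h3]
            linarith
          · have hb' : Good d b F := not_not.1 hb
            have h3 := one_le_sum_joK hK hhom hne0 hne hb' (hlt i hi) (hdist i n (hlt i hi).ne)
              hpos (fun l hl _ => hcrit l ((hSn i (hΓS hi)).trans hl))
            have h4 : ∑ l ∈ Finset.Ico i n, joK d F b (iter F x l) ≤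
                ∑ l ∈ Finset.Ico n₀ n, Set.indicator Bᶜ (fun b => joK d F b (iter F x l)) b := by
              have h5 : ∑ l ∈ Finset.Ico i n, joK d F b (iter F x l) =
                  ∑ l ∈ Finset.Ico i n, Set.indicator Bᶜ (fun b => joK d F b (iter F x l)) b :=
                Finset.sum_congr rfl fun l _ => (Set.indicator_of_mem
                  (f := fun b => joK d F b (iter F x l)) (Set.mem_compl hb)).symm
              rw [h5]
              refine Finset.sum_le_sum_of_subset_of_nonneg
                (Finset.Ico_subset_Ico_left (hSn i (hΓS hi))) fun l hl _ => hjo0 b l hl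
            have h6 : 0 ≤ Set.indicator B (fun _ : Place k K => (1 : ℤ)) b :=
              Set.indicator_nonneg (fun _ _ => by norm_num) b
            rw [hJ]
            change 1 ≤ _ + _
            linarith
        linarith
      · exact (not_lt.1 hpos).trans (add_nonneg (hM0 b) (hJ0 b))
    -- supports
    have hsupp1 : ∀ i ∈ Γ, (Function.support fun b : Place k K =>
        cl b (iter F x i) (iter F x n)).Finite := fun i hi =>
      cl_support hK (hne0 i) (hne0 n) (hdist i n (hlt i hi).ne)
    have hsupp2 : ∀ l ∈ Finset.Ico n₀ n, (Function.support fun b : Place k K =>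
        Set.indicator Bᶜ (fun b => joK d F b (iter F x l)) b).Finite := fun l hl =>
      (hC₂ _ (hne0 l) (hcrit l (Finset.mem_Ico.1 hl).1)).1
    have hsupp3 : ∀ i ∈ Γ, ∀ j ∈ Γ.erase i, (Function.support fun b : Place k K =>
        cl b (iter F x i) (iter F x j)).Finite := fun i _ j hj =>
      cl_support hK (hne0 i) (hne0 j) (hdist i j (Finset.ne_of_mem_erase hj).symm)
    have hs3 : ∀ i ∈ Γ, (Function.support fun b : Place k K => ∑ j ∈ Γ.erase i,
        cl b (iter F x i) (iter F x j)).Finite := fun i hi =>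
      sum_support_finite _ _ (hsupp3 i hi)
    have hfs2 := sum_support_finite (Finset.Ico n₀ n) (fun l (b : Place k K) =>
      Set.indicator Bᶜ (fun b => joK d F b (iter F x l)) b) hsupp2
    have hfs3 := sum_support_finite Γ (fun i (b : Place k K) => ∑ j ∈ Γ.erase i,
        cl b (iter F x i) (iter F x j)) hs3
    have hind : (Function.support fun b : Place k K => Set.indicator B (fun _ => (1 : ℤ)) b).Finite :=
      hbad.subset fun b hb => by
        by_contra hcon
        exact hb (Set.indicator_of_notMem hcon _)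
    have hJs : (Function.support J).Finite :=
      (hfs2.union hind).subset (Function.support_add _ _)
    have hlogψ := finsum_log hK (ψ n) hψn
    have hnrm := nrm_support hK _ (hne0 n)
    have hnrm' : (Function.support fun b : Place k K =>
        (w : ℤ) * WithZero.log (nrm b (iter F x n))).Finite := by
      refine hnrm.subset fun b hb => ?_
      rw [Function.mem_support] at hb ⊢
      exact right_ne_zero_of_mul hb
    have hMs1 : (Function.support fun b : Place k K =>
        (w : ℤ) * WithZero.log (nrm b (iter F x n)) + c b).Finite :=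
      (hnrm'.union hcs).subset (Function.support_add _ _)
    have hMs : (Function.support M).Finite :=
      (hMs1.union hlogψ.1).subset (Function.support_sub _ _)
    have hMJs : (Function.support fun b => M b + J b).Finite :=
      (hMs.union hJs).subset (Function.support_add _ _)
    have hglob : ∑ᶠ b : Place k K, ∑ i ∈ Γ, cl b (iter F x i) (iter F x n) ≤
        ∑ᶠ b : Place k K, ((M b + J b) +
          ∑ i ∈ Γ, ∑ j ∈ Γ.erase i, cl b (iter F x i) (iter F x j)) :=
      finsum_le_finsum' (sum_support_finite Γ _ hsupp1)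
        ((hMJs.union hfs3).subset (Function.support_add _ _)) hloc
    rw [finsum_sum_swap Γ _ hsupp1, finsum_add_distrib hMJs hfs3, finsum_add_distrib hMs hJs,
      finsum_sum_swap _ _ hs3] at hglob
    have h4 : ∑ i ∈ Γ, ∑ᶠ b : Place k K, ∑ j ∈ Γ.erase i, cl b (iter F x i) (iter F x j) =
        Cst := by
      rw [hCst]
      exact Finset.sum_congr rfl fun i hi => finsum_sum_swap _ _ (hsupp3 i hi)
    have h5 : ∑ i ∈ Γ, ∑ᶠ b : Place k K, cl b (iter F x i) (iter F x n) =
        ∑ i ∈ Γ, ht k (iter F x i) + Γ.card * ht k (iter F x n) -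
          ∑ i ∈ Γ, ht k (crossProduct (iter F x i) (iter F x n)) := by
      rw [← nsmul_eq_mul, ← Finset.sum_const, ← Finset.sum_add_distrib, ← Finset.sum_sub_distrib]
      exact Finset.sum_congr rfl fun i hi =>
        finsum_cl hK (hne0 i) (hne0 n) (hdist i n (hlt i hi).ne)
    have h6 : ∑ᶠ b, M b = w * ht k (iter F x n) + ∑ᶠ b, c b := by
      rw [hM, finsum_sub_distrib hMs1 hlogψ.1, hlogψ.2, sub_zero, finsum_add_distrib hnrm' hcs,
        ← mul_finsum]
      rfl
    have h7 : ∑ᶠ b : Place k K, Set.indicator B (fun _ => (1 : ℤ)) b = hbad.toFinset.card := by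
      rw [finsum_eq_sum_of_support_subset (s := hbad.toFinset)]
      · rw [Finset.sum_congr rfl (g := fun _ => (1 : ℤ))]
        · simp
        · intro b hb
          exact Set.indicator_of_mem ((Set.Finite.mem_toFinset _).1 hb) _
      · intro b hb
        rw [Set.Finite.coe_toFinset]
        by_contra hcon
        exact hb (Set.indicator_of_notMem hcon _)
    have h8 : ∑ᶠ b, J b = ∑ l ∈ Finset.Ico n₀ n, ∑ᶠ b : Place k K,
        Set.indicator Bᶜ (fun b => joK d F b (iter F x l)) b + hbad.toFinset.card := by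
      rw [hJ, finsum_add_distrib hfs2 hind, finsum_sum_swap _ _ hsupp2, h7]
    have h9 : ∑ l ∈ Finset.Ico n₀ n, ∑ᶠ b : Place k K,
        Set.indicator Bᶜ (fun b => joK d F b (iter F x l)) b ≤
          3 * ht k (iter F x n) + (3 * C₁ + max C₂ 0) * (n + 1) := by
      have h10 : ∑ l ∈ Finset.Ico n₀ n, ∑ᶠ b : Place k K,
          Set.indicator Bᶜ (fun b => joK d F b (iter F x l)) b ≤
          ∑ l ∈ Finset.Ico n₀ n, (3 * ((d : ℤ) - 1) * ht k (iter F x l) + max C₂ 0) :=
        Finset.sum_le_sum fun l hl =>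
          (hC₂ _ (hne0 l) (hcrit l (Finset.mem_Ico.1 hl).1)).2.trans
            (add_le_add_right (le_max_left _ _) _)
      rw [Finset.sum_add_distrib, Finset.sum_const, Nat.card_Ico, ← Finset.mul_sum,
        nsmul_eq_mul] at h10
      have h11 := hC₁ n₀ n hn0
      have h12 : ((n - n₀ : ℕ) : ℤ) * max C₂ 0 ≤ ((n : ℤ) + 1) * max C₂ 0 :=
        mul_le_mul_of_nonneg_right (by omega) (le_max_right _ _)
      nlinarith [h10, h11, h12]
    have h13 := hlow n hn hnE
    have h14 : max K₂ 0 ≤ max K₂ 0 * ((n : ℤ) + 1) :=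
      le_mul_of_one_le_right (le_max_right _ _) (by omega)
    have h15 : K₂ ≤ max K₂ 0 := le_max_left _ _
    rw [h4, h5, h6, h8] at hglob
    have hwz : (w : ℤ) = (D : ℤ) ^ 2 + 2 * D + 6 := by rw [hw]; push_cast; ring
    push_cast at h13
    rw [hwz] at hglob
    rw [hK₂] at h15
    nlinarith [hglob, h9, h13, h14, h15]
  obtain ⟨n₁, hn₁⟩ := ht_growth hK hF hx hunb (3 * C₁ + max C₂ 0 + max K₂ 0)
  obtain ⟨n, hnS, hn⟩ := (hS.sdiff ((hE.union hE2).union
    (Set.finite_le_nat (Γ.sup id + n₁)))).nonempty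
  rw [Set.mem_union, Set.mem_union, not_or, not_or] at hn
  obtain ⟨⟨hnE, hnE2⟩, hnM⟩ := hn
  have hnM' : ¬ n ≤ Γ.sup id + n₁ := hnM
  have h1 := hkey n hnS hnE (fun h => hnE2 ⟨hnS, h⟩) (fun i hi => by
    have : i ≤ Γ.sup id := Finset.le_sup (f := id) hi
    omega)
  have h2 := hn₁ n (by omega)
  exact absurd h1 (not_le.2 h2)

end Pool.Agent.Helper63.TK
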